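import Mathlib
import Pool.Agent.H75.UB.Cmp

set_option autoImplicit false

/-! Best `m`-term trigonometric approximation in the uniform norm of the mixed smoothness classes
with `1 < p < 2`, in every dimension: the lower bound of the literature is sharp up to iterated
logarithms, and the upper bound of the literature is not sharp. -/

open MeasureTheory UnitAddTorus Filter

open scoped ENNReal

namespace Pool.Agent.Results.MP_8c6e6e_an.LowerBoundSharp

noncomputable section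

/-- The circle `ℝ / ℤ` carries its normalised Haar measure. -/
local instance : MeasureSpace UnitAddCircle := ⟨AddCircle.haarAddCircle⟩

local instance : Measure.IsAddHaarMeasure (volume : Measure UnitAddCircle) :=
  inferInstanceAs (Measure.IsAddHaarMeasure AddCircle.haarAddCircle)

local instance : IsProbabilityMeasure (volume : Measure UnitAddCircle) :=
  inferInstanceAs (IsProbabilityMeasure AddCircle.haarAddCircle)

/-- The `k`-th Fourier coefficient of the univariate kernel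
`F_r(t) = 1 + 2 ∑ k ^ (-r) cos (k t - r π / 2)`. -/
def kernelCoeff (r : ℝ) (k : ℤ) : ℂ :=
  if k = 0 then 1 else ((|(k : ℝ)| ^ (-r) : ℝ) : ℂ) *
    Complex.exp ((-(Real.pi * r * (SignType.sign (k : ℝ) : ℝ) / 2) : ℝ) * Complex.I)

/-- The class of the functions `f = F_r * φ` with `‖φ‖_p ≤ 1` on the `d`-dimensional torus, for
complex valued (in particular for real valued) `φ`; `F_r` is integrable for `r > 0`, and the
convolution is given by its Fourier coefficients. -/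
def SobolevClass (d : ℕ) (r : ℝ) (p : ℝ≥0∞) : Set (UnitAddTorus (Fin d) → ℂ) :=
  {f | Integrable f volume ∧ ∃ φ : UnitAddTorus (Fin d) → ℂ, MemLp φ p volume ∧
    eLpNorm φ p volume ≤ 1 ∧ ∀ k : Fin d → ℤ, mFourierCoeff f k
      = (∏ i, kernelCoeff r (k i)) * mFourierCoeff φ k}

/-- The best `m`-term trigonometric approximation of `f` in the uniform norm. -/
def sigma {d : ℕ} (m : ℕ) (f : UnitAddTorus (Fin d) → ℂ) : ℝ≥0∞ :=
  ⨅ (L : Finset (Fin d → ℤ)) (_ : L.card ≤ m) (c : (Fin d → ℤ) → ℂ),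
    eLpNorm (fun x => f x - ∑ k ∈ L, c k * mFourier k x) ⊤ volume

/-- The best `m`-term trigonometric approximation of the class in the uniform norm. -/
def sigmaClass (d m : ℕ) (r : ℝ) (p : ℝ≥0∞) : ℝ≥0∞ := ⨆ f ∈ SobolevClass d r p, sigma m f

/-- With `η = 1 / p - 1 / 2`, for `1 < p < 2` and `r > 1 / p`, and in every dimension `d ≥ 1`:
`σ_m(W^r_p)_∞ ≤ C m^(-r+η) (log m)^((d-1)(r-2η)) (log log m)^(8+5(r-η))` for all large `m`, and
`σ_m(W^r_p)_∞ = o(m^(-r+η) (log m)^((d-1)(r-2η)+1/2))`. -/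
theorem result (d : ℕ) (hd : 1 ≤ d) (p r : ℝ) (hp1 : 1 < p) (hp2 : p < 2) (hr : 1 / p < r) :
    (∃ C : ℝ, 0 < C ∧ ∀ᶠ m : ℕ in atTop,
      sigmaClass d m r (ENNReal.ofReal p) ≤ ENNReal.ofReal
        (C * (m : ℝ) ^ (-(r - (1 / p - 1 / 2)))
          * (Real.log m) ^ (((d : ℝ) - 1) * (r - 2 * (1 / p - 1 / 2)))
          * (Real.log (Real.log m)) ^ (8 + 5 * (r - (1 / p - 1 / 2))))) ∧
    ∀ ε : ℝ, 0 < ε → ∀ᶠ m : ℕ in atTop,
      sigmaClass d m r (ENNReal.ofReal p) ≤ ENNReal.ofReal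
        (ε * (m : ℝ) ^ (-(r - (1 / p - 1 / 2)))
          * (Real.log m) ^ (((d : ℝ) - 1) * (r - 2 * (1 / p - 1 / 2)) + 1 / 2)) := by
  have key : ∃ C : ℝ, 0 < C ∧ ∀ᶠ m : ℕ in atTop,
      sigmaClass d m r (ENNReal.ofReal p) ≤ ENNReal.ofReal
        (C * (m : ℝ) ^ (-(r - (1 / p - 1 / 2)))
          * (Real.log m) ^ (((d : ℝ) - 1) * (r - 2 * (1 / p - 1 / 2)))
          * (Real.log (Real.log m)) ^ (8 + 5 * (r - (1 / p - 1 / 2)))) := by
    obtain ⟨C, hC, h⟩ := H75.UB.upper d hd p r hp1 hp2 hr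
    refine ⟨C, hC, ?_⟩
    filter_upwards [h] with m hm
    unfold sigmaClass
    refine iSup₂_le (fun f hf => ?_)
    obtain ⟨hf1, φ, hφ, hφ1, hco⟩ := hf
    obtain ⟨L, c, hL, hc⟩ := hm f φ hf1 hφ hφ1 hco
    unfold sigma
    exact iInf_le_of_le L (iInf_le_of_le hL (iInf_le_of_le c hc))
  refine ⟨key, ?_⟩
  intro ε hε
  obtain ⟨C, hC, h⟩ := key
  have hl : Tendsto (fun m : ℕ => Real.log m) atTop atTop :=
    Real.tendsto_log_atTop.comp tendsto_natCast_atTop_atTop
  filter_upwards [h, H75.UB.iter_log C (8 + 5 * (r - (1 / p - 1 / 2))) ε hε,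
    hl.eventually_gt_atTop 0] with m hm hm2 hm3
  refine hm.trans (ENNReal.ofReal_le_ofReal ?_)
  have h0 : (0 : ℝ) ≤ (m : ℝ) ^ (-(r - (1 / p - 1 / 2)))
      * (Real.log m) ^ (((d : ℝ) - 1) * (r - 2 * (1 / p - 1 / 2))) := by positivity
  calc C * (m : ℝ) ^ (-(r - (1 / p - 1 / 2)))
        * (Real.log m) ^ (((d : ℝ) - 1) * (r - 2 * (1 / p - 1 / 2)))
        * (Real.log (Real.log m)) ^ (8 + 5 * (r - (1 / p - 1 / 2)))
      = ((m : ℝ) ^ (-(r - (1 / p - 1 / 2)))
        * (Real.log m) ^ (((d : ℝ) - 1) * (r - 2 * (1 / p - 1 / 2))))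
        * (C * (Real.log (Real.log m)) ^ (8 + 5 * (r - (1 / p - 1 / 2)))) := by ring
    _ ≤ ((m : ℝ) ^ (-(r - (1 / p - 1 / 2)))
        * (Real.log m) ^ (((d : ℝ) - 1) * (r - 2 * (1 / p - 1 / 2))))
        * (ε * (Real.log m) ^ (1 / 2 : ℝ)) := mul_le_mul_of_nonneg_left hm2 h0
    _ = _ := by
        rw [Real.rpow_add hm3]
        ring

end

end Pool.Agent.Results.MP_8c6e6e_an.LowerBoundSharp
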