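import Mathlib
import Pool.Agent.H75.MX.Asym

set_option autoImplicit false

/-! Best `m`-term trigonometric approximation in the uniform norm of the mixed smoothness classes
in dimension at least three: the upper bound of the literature is sharp. -/

open MeasureTheory UnitAddTorus Filter

open scoped ENNReal

namespace Pool.Agent.Results.MP_8c6e6e_an.UpperBoundSharp

noncomputable section

/-- The circle `ℝ / ℤ` carries its normalised Haar measure. -/
local instance : MeasureSpace UnitAddCircle := ⟨AddCircle.haarAddCircle⟩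

local instance : Measure.IsAddHaarMeasure (volume : Measure UnitAddCircle) :=
  inferInstanceAs (Measure.IsAddHaarMeasure AddCircle.haarAddCircle)

local instance : IsProbabilityMeasure (volume : Measure UnitAddCircle) :=
  inferInstanceAs (IsProbabilityMeasure AddCircle.haarAddCircle)

/-- The `k`-th Fourier coefficient of the univariate kernel
`F_r(t) = 1 + 2 ∑ k ^ (-r) cos (k t - r π / 2)`. -/
def kernelCoeff (r : ℝ) (k : ℤ) : ℂ :=
  if k = 0 then 1 else ((|(k : ℝ)| ^ (-r) : ℝ) : ℂ) *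
    Complex.exp ((-(Real.pi * r * (SignType.sign (k : ℝ) : ℝ) / 2) : ℝ) * Complex.I)

/-- The class of real functions `f = F_r * φ` with `‖φ‖_p ≤ 1`, on the `d`-dimensional torus
(`F_r` is integrable for `r > 0`, and the convolution is given by its Fourier coefficients). -/
def SobolevClass (d : ℕ) (r : ℝ) (p : ℝ≥0∞) : Set (UnitAddTorus (Fin d) → ℝ) :=
  {f | Integrable f volume ∧ ∃ φ : UnitAddTorus (Fin d) → ℝ, MemLp φ p volume ∧
    eLpNorm φ p volume ≤ 1 ∧ ∀ k : Fin d → ℤ, mFourierCoeff (fun x => (f x : ℂ)) k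
      = (∏ i, kernelCoeff r (k i)) * mFourierCoeff (fun x => (φ x : ℂ)) k}

/-- The best `m`-term trigonometric approximation of `f` in the uniform norm. -/
def sigma {d : ℕ} (m : ℕ) (f : UnitAddTorus (Fin d) → ℝ) : ℝ≥0∞ :=
  ⨅ (L : Finset (Fin d → ℤ)) (_ : L.card ≤ m) (c : (Fin d → ℤ) → ℂ),
    eLpNorm (fun x => (f x : ℂ) - ∑ k ∈ L, c k * mFourier k x) ⊤ volume

/-- The best `m`-term trigonometric approximation of the class in the uniform norm. -/
def sigmaClass (d m : ℕ) (r : ℝ) (p : ℝ≥0∞) : ℝ≥0∞ := ⨆ f ∈ SobolevClass d r p, sigma m f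

theorem result (d : ℕ) (hd : 3 ≤ d) (r : ℝ) (hr : 0 < r) (p : ℝ≥0∞) (hp2 : 2 ≤ p)
    (hp : p ≠ ⊤) :
    ∃ c : ℝ, 0 < c ∧ ∀ᶠ m : ℕ in atTop,
      ENNReal.ofReal (c * (m : ℝ) ^ (-r) * (Real.log m) ^ (r * ((d : ℝ) - 1) + 1 / 2))
        ≤ sigmaClass d m r p := by
  obtain ⟨mp, hmp⟩ := ENNReal.exists_nat_gt hp
  have hmp1 : 1 ≤ mp := by
    have h1 : (2 : ℝ≥0∞) < mp := lt_of_le_of_lt hp2 hmp
    have h2 : 2 < mp := by exact_mod_cast h1
    omega
  obtain ⟨c, q0, hc, hq01, hcon⟩ := H75.MX.construct d hd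
  obtain ⟨c', hc', hcomp⟩ := H75.MX.compare d hd r hr mp hmp1 c hc
  refine ⟨c', hc', ?_⟩
  filter_upwards [eventually_gt_atTop (max 2 ((Finset.range (q0 + 1)).sup (H75.MX.fq d)))]
    with m hm
  have hm2 : 2 ≤ m := by
    have := (le_max_left 2 ((Finset.range (q0 + 1)).sup (H75.MX.fq d))).trans_lt hm
    omega
  obtain ⟨q, hq, h1, h2⟩ := H75.MX.params d (by omega) q0 m hq01
    ((le_max_right 2 ((Finset.range (q0 + 1)).sup (H75.MX.fq d))).trans_lt hm)
  obtain ⟨F, P, hF, hP, hco, hnorm, hlow⟩ := hcon r hr mp hmp1 q hq.le (4 * d * q) rfl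
  have hcmp := hcomp q m (4 * d * q) (by omega) hm2 rfl h1 h2
  have hFre : (fun x => (((F x).re : ℝ) : ℂ)) = fun x => F x := by
    funext x
    apply Complex.ext
    · simp
    · simpa using (hF x).symm
  have hPre : (fun x => (((P x).re : ℝ) : ℂ)) = fun x => P x := by
    funext x
    apply Complex.ext
    · simp
    · simpa using (hP x).symm
  have hmem : (fun x => (F x).re) ∈ SobolevClass d r p := by
    refine ⟨?_, fun x => (P x).re, ?_, ?_, ?_⟩
    · exact H75.UB.rint _ (by fun_prop)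
    · have hc : Continuous (fun x : UnitAddTorus (Fin d) => (P x).re) := by fun_prop
      exact hc.memLp_of_hasCompactSupport (HasCompactSupport.of_compactSpace _)
    · refine le_trans ?_ hnorm
      have hc : Continuous (fun x : UnitAddTorus (Fin d) => (P x).re) := by fun_prop
      exact eLpNorm_le_eLpNorm_of_exponent_le hmp.le hc.aestronglyMeasurable
    · intro k
      rw [hFre, hPre]
      exact hco k
  refine le_trans ?_ (le_iSup₂ (f := fun f (_ : f ∈ SobolevClass d r p) => sigma m f)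
    (fun x => (F x).re) hmem)
  unfold sigma
  refine le_iInf fun L => le_iInf fun hL => le_iInf fun b => ?_
  by_cases hfin : eLpNorm (fun x : UnitAddTorus (Fin d) => (((F x).re : ℝ) : ℂ)
      - ∑ k ∈ L, b k * mFourier k x) ⊤ volume = ⊤
  · rw [hfin]
    exact le_top
  · have hcont : Continuous (fun x : UnitAddTorus (Fin d) => (((F x).re : ℝ) : ℂ)
        - ∑ k ∈ L, b k * mFourier k x) := by fun_prop
    have hL' : L.card * (32768 * (d + 3)) ≤ H75.MX.LL d (4 * d * q) * (2 ^ d * 8 ^ (4 * d * q)) :=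
      (Nat.mul_le_mul_right _ hL).trans h1
    have hle := hlow L hL' b (eLpNorm (fun x : UnitAddTorus (Fin d) => (((F x).re : ℝ) : ℂ)
      - ∑ k ∈ L, b k * mFourier k x) ⊤ volume).toReal (fun x => by
        have h5 := H75.MX.le_essSup _ hcont hfin x
        have h6 : (((F x).re : ℝ) : ℂ) = F x := congrFun hFre x
        rw [← h6]
        exact h5)
    exact ENNReal.ofReal_le_of_le_toReal (hcmp.trans hle)

end

end Pool.Agent.Results.MP_8c6e6e_an.UpperBoundSharp
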